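import Pool.Agent.TH268.NP.Fin
import Pool.Agent.TH304.POS.Strict
import Pool.Agent.TH609.J49

set_option autoImplicit false

/-!
# A curvilinear polygon whose Neumann-Poincare operator has infinitely many eigenvalues

MP_f4a5f6_an, question Q1: the answer is negative.

The curve is symmetric about the real axis, lies in the closed unit disc, has two right-angled
corners at `1` and `-1`, and coincides with the unit circle near `i` and `-i`.  On odd functions the
operator is symmetrizable (Plemelj); in bipolar coordinates its non-compact part is convolution with
a negative multiple of `1 / cosh`, a negative semidefinite operator, and the remainder is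
Hilbert-Schmidt; on densities carried by the circular part the symmetrized form is positive, and
these densities form an infinite dimensional space.  Hence there are infinitely many positive
eigenvalues.
-/

open MeasureTheory Set Filter Topology
open scoped ContDiff
open Pool.Agent.TH268.NPDefs

namespace Pool.Agent.Results.MP_f4a5f6_an.InfManyEigen

/-- There is a Jordan curve, the union of two smooth (`C^∞`) regular arcs meeting at two corners with
interior angle `π / 2`, whose Neumann-Poincare operator on `H^{1/2}` has infinitely many distinct
(positive) eigenvalues. -/
theorem result : ∃ Γ : CurvPolygon,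
    Γ.n = 2 ∧ (∀ i, ContDiffOn ℝ ∞ (Γ.arc i) (Icc 0 1)) ∧
    (∀ i, Γ.interiorAngle i = Real.pi / 2) ∧
    {lam : ℝ | 0 < lam ∧ (lam : ℂ) ∈ Γ.eigenvalues}.Infinite :=
  Pool.Agent.TH268.NP.final Pool.Agent.TH268.NP.npplem Pool.Agent.TH268.NP.nppos

end Pool.Agent.Results.MP_f4a5f6_an.InfManyEigen
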